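import Pool.Agent.Lib.MP_df705a_gt.Coll.Flat

/-!
# Towers of fibre bundles: definitions
-/

open scoped Manifold ContDiff Topology
open Bundle Module Filter

noncomputable section

namespace Pool.Agent.Lib.MP_df705a_gt.Coll

open Pool.Agent.Lib.MP_df705a_gt.Twist Pool.Agent.Lib.MP_df705a_gt.Perm
open Pool.Agent.Lib.MP_df705a_gt.Fib (RiemSub Biconformal)

universe u v

/-- A closed connected manifold of positive dimension, modelled on the vector space `E`. -/
structure ClosedMfd : Type (max (u + 1) (v + 1)) where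
  /-- The model space. -/
  E : Type u
  /-- The manifold. -/
  M : Type v
  [normed : NormedAddCommGroup E]
  [space : NormedSpace ℝ E]
  [fin : FiniteDimensional ℝ E]
  [top : TopologicalSpace M]
  [charted : ChartedSpace E M]
  [mfd : IsManifold 𝓘(ℝ, E) ∞ M]
  [compact : CompactSpace M]
  [t2 : T2Space M]
  [conn : ConnectedSpace M]
  pos : 0 < finrank ℝ E

attribute [instance] ClosedMfd.normed ClosedMfd.space ClosedMfd.fin ClosedMfd.top
  ClosedMfd.charted ClosedMfd.mfd ClosedMfd.compact ClosedMfd.t2 ClosedMfd.conn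

/-- A tower of smooth fibre bundles `M = M_r → ... → M_1 → M_0 = B` of closed connected manifolds
such that no fibre carries a metric of positive scalar curvature. -/
inductive Tower (B : ClosedMfd.{u, v}) : ClosedMfd.{u, v} → Type (max (u + 1) (v + 1))
  | base : Tower B B
  | step {N : ClosedMfd.{u, v}} (T : Tower B N) (M F : ClosedMfd.{u, v}) (pr : M.M → N.M)
      (hM : finrank ℝ M.E = finrank ℝ N.E + finrank ℝ F.E)
      (hpr : IsFibreBundle M.E N.E F.E F.M pr)
      (hF : ∀ h : Met F.E F.M, ¬ PosScal h) : Tower B M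

/-- The maps `M → M_0`, ..., `M → M_(r-1)` from the top of the tower to the lower stages. -/
def Tower.maps {B : ClosedMfd.{u, v}} : {M : ClosedMfd.{u, v}} → Tower B M →
    List (Σ N : ClosedMfd.{u, v}, M.M → N.M)
  | _, .base => []
  | _, .step (N := N) T _ _ pr _ _ _ =>
      (T.maps.map fun q => ⟨q.1, fun p => q.2 (pr p)⟩) ++ [⟨N, pr⟩]

/-- Iterated collapse of the metric `g` along the maps `q₁, ..., q_r`: there is `e₁ > 0` such that
for `0 < ε₁ < e₁` there is `e₂ > 0` such that for `0 < ε₂ < e₂` ... the metric obtained from `g` by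
multiplying it by `ε₁²` on the fibres of `q₁`, then the result by `ε₂²` on the fibres of `q₂`, and
so on, is not conformal to a metric of positive scalar curvature. -/
def NoPSC {M : ClosedMfd.{u, v}} : List (Σ N : ClosedMfd.{u, v}, M.M → N.M) → Met M.E M.M → Prop
  | [], g => ¬ ConfPSC g
  | q :: qs, g => ∃ e : ℝ, 0 < e ∧ ∀ ε : ℝ, 0 < ε → ε < e →
      (∃ g' : Met M.E M.M, Biconformal q.1.E g g' q.2 (fun _ => 1) (fun _ => ε)) ∧
      ∀ g' : Met M.E M.M, Biconformal q.1.E g g' q.2 (fun _ => 1) (fun _ => ε) → NoPSC qs g'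

/-- The metric `g` is conformal to a metric `g₁` for which `pr` is a Riemannian submersion onto
`(N, gN)` with Ricci flat fibres modelled on `E₂`. -/
def ConfFlat {M N : ClosedMfd.{u, v}} (E₂ : Type u) [NormedAddCommGroup E₂] [NormedSpace ℝ E₂]
    [FiniteDimensional ℝ E₂] (pr : M.M → N.M) (g : Met M.E M.M) (gN : Met N.E N.M) : Prop :=
  ∃ (ψ : M.M → ℝ) (g₁ : Met M.E M.M), Sm M.E ψ ∧ IsConf ψ g g₁ ∧ RiemSub g₁ gN pr ∧
    RicciFlatFibres E₂ g₁ pr

/-- The metric `g` on the top of the tower is conformal to the metric of a Riemannian submersion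
`M_r → M_(r-1)` with Ricci flat fibres over a metric on `M_(r-1)` which is again of this type, and so
on, and the last metric, on `B`, is conformal to a metric of positive scalar curvature. -/
def Tower.Rigid {B : ClosedMfd.{u, v}} : {M : ClosedMfd.{u, v}} → Tower B M → Met M.E M.M → Prop
  | _, .base, g => ConfPSC g
  | _, .step (N := N) T _ F pr _ _ _, g => ∃ gN : Met N.E N.M, ConfFlat F.E pr g gN ∧ T.Rigid gN

end Pool.Agent.Lib.MP_df705a_gt.Coll
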