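import Pool.Agent.Lib.MP_df705a_gt.Coll.Z.Biconf
import Pool.Agent.Lib.MP_df705a_gt.Coll.W.Defs

/-!
# Collapse of a metric which is horizontally conformal
-/

open scoped Manifold ContDiff Topology
open Set Bundle Module Filter

noncomputable section

namespace Pool.Agent.Lib.MP_df705a_gt.Coll

open Pool.Agent.Lib.MP_df705a_gt.Twist Pool.Agent.Lib.MP_df705a_gt.Perm
open Pool.Agent.Lib.MP_df705a_gt.Circ (Horizontal Submersion cf)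
open Pool.Agent.Lib.MP_df705a_gt.Fib (RiemSub Biconformal)

variable {E : Type*} [NormedAddCommGroup E] [NormedSpace ℝ E] [FiniteDimensional ℝ E]
  {M : Type*} [TopologicalSpace M] [ChartedSpace E M] [IsManifold 𝓘(ℝ, E) ∞ M]
  {E₁ : Type*} [NormedAddCommGroup E₁] [NormedSpace ℝ E₁] [FiniteDimensional ℝ E₁]
  {N : Type*} [TopologicalSpace N] [ChartedSpace E₁ N] [IsManifold 𝓘(ℝ, E₁) ∞ N]
  {E₀ : Type*} [NormedAddCommGroup E₀] [NormedSpace ℝ E₀] [FiniteDimensional ℝ E₀]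
  {P : Type*} [TopologicalSpace P] [ChartedSpace E₀ P] [IsManifold 𝓘(ℝ, E₀) ∞ P]
  {E₂ : Type*} [NormedAddCommGroup E₂] [NormedSpace ℝ E₂] [FiniteDimensional ℝ E₂]

set_option linter.unusedSectionVars false

namespace Lin

/-- The bilinear expansion. -/
theorem inner_add_add (g : Met E M) (p : M) (a b c d : TangentSpace 𝓘(ℝ, E) p) :
    g.inner p (a + b) (c + d) =
      g.inner p a c + g.inner p a d + (g.inner p b c + g.inner p b d) := by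
  simp only [map_add, add_apply]
  ring

theorem hor_of_conf {pr : M → N} {g g₁ : Met E M} {ψ : M → ℝ} (h : IsConf ψ g g₁) {p : M}
    {u : TangentSpace 𝓘(ℝ, E) p} (hu : Horizontal (E₁ := E₁) g₁ pr p u) :
    Horizontal (E₁ := E₁) g pr p u := by
  intro w hw
  have h1 := hu w hw
  rw [h p u w] at h1
  exact (mul_eq_zero.1 h1).resolve_left (pow_ne_zero 2 (Real.exp_pos _).ne')

theorem hor_to_conf {pr : M → N} {g g₁ : Met E M} {ψ : M → ℝ} (h : IsConf ψ g g₁) {p : M}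
    {u : TangentSpace 𝓘(ℝ, E) p} (hu : Horizontal (E₁ := E₁) g pr p u) :
    Horizontal (E₁ := E₁) g₁ pr p u := by
  intro w hw
  rw [h p u w, hu w hw, mul_zero]

theorem mfderiv_comp_apply {pr : M → N} (hpr : Submersion E E₁ pr) {q : N → P}
    (hq : Submersion E₁ E₀ q) (p : M) (u : TangentSpace 𝓘(ℝ, E) p) :
    mfderiv 𝓘(ℝ, E) 𝓘(ℝ, E₀) (fun p => q (pr p)) p u =
      mfderiv 𝓘(ℝ, E₁) 𝓘(ℝ, E₀) q (pr p) (mfderiv 𝓘(ℝ, E) 𝓘(ℝ, E₁) pr p u) := by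
  have h1 : MDifferentiableAt 𝓘(ℝ, E) 𝓘(ℝ, E₁) pr p := (hpr.1 p).mdifferentiableAt (by simp)
  have h2 : MDifferentiableAt 𝓘(ℝ, E₁) 𝓘(ℝ, E₀) q (pr p) :=
    (hq.1 (pr p)).mdifferentiableAt (by simp)
  have h3 : mfderiv 𝓘(ℝ, E) 𝓘(ℝ, E₀) (q ∘ pr) p =
      (mfderiv 𝓘(ℝ, E₁) 𝓘(ℝ, E₀) q (pr p)).comp (mfderiv 𝓘(ℝ, E) 𝓘(ℝ, E₁) pr p) :=
    mfderiv_comp p h2 h1
  exact congrArg (fun L : TangentSpace 𝓘(ℝ, E) p →L[ℝ] E₀ => L u) h3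

theorem submersion_comp {pr : M → N} (hpr : Submersion E E₁ pr) {q : N → P}
    (hq : Submersion E₁ E₀ q) : Submersion E E₀ (fun p => q (pr p)) := by
  refine ⟨hq.1.comp hpr.1, fun p b => ?_⟩
  obtain ⟨a, ha⟩ := hq.2 (pr p) b
  obtain ⟨u, hu⟩ := hpr.2 p a
  refine ⟨u, ?_⟩
  rw [mfderiv_comp_apply hpr hq, hu, ha]

/-- The inverse of a collapse. -/
theorem bic_inv {pr : M → N} {g g' : Met E M} {ε : ℝ} (hε : 0 < ε)
    (h : Biconformal E₁ g g' pr (fun _ => 1) (fun _ => ε)) :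
    Biconformal E₁ g' g pr (fun _ => 1) (fun _ => ε⁻¹) := by
  intro p u v w z hu hv hw hz
  have hu' := BiconfAux.hor_of_hor h p u hu
  have hv' := BiconfAux.hor_of_hor h p v hv
  have h1 : g.inner p u z = 0 := hu' z hz
  have h2 : g.inner p w v = 0 := by
    rw [g.symm]
    exact hv' w hw
  rw [inner_add_add, h1, h2, BiconfAux.hor h p u v hu' hv', BiconfAux.vert h p w z hw hz]
  have h3 : ε ≠ 0 := hε.ne'
  field_simp
  ring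

/-- Horizontal vectors of the big map are orthogonal to its vertical vectors for the collapsed
metric. -/
theorem bic_orth {pr : M → N} {g g' : Met E M} {ε : ℝ}
    (h : Biconformal E₁ g g' pr (fun _ => 1) (fun _ => ε)) (p : M)
    (u w : TangentSpace 𝓘(ℝ, E) p) (hu : Horizontal (E₁ := E₁) g pr p u)
    (hw : mfderiv 𝓘(ℝ, E) 𝓘(ℝ, E₁) pr p w = 0) : g'.inner p u w = 0 := by
  have hm : mfderiv 𝓘(ℝ, E) 𝓘(ℝ, E₁) pr p (0 : TangentSpace 𝓘(ℝ, E) p) = 0 := map_zero _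
  have h1 := h p u 0 0 w hu (BiconfAux.horizontal_zero g pr p) hm hw
  rw [add_zero, zero_add, BiconfAux.inner_zero_right, BiconfAux.inner_zero_left] at h1
  simpa using h1

/-- The metric `g` is conformal to the metric of a Riemannian submersion if this holds for the
metric collapsed along `q ∘ pr`. -/
theorem riemSub_up {pr : M → N} (hpr : Submersion E E₁ pr) {q : N → P}
    (hq : Submersion E₁ E₀ q) {g g' g₁ g₁' : Met E M} {gN gN' : Met E₁ N} {ε : ℝ} (hε : 0 < ε)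
    (hM : Biconformal E₀ g g' (fun p => q (pr p)) (fun _ => 1) (fun _ => ε))
    (hN : Biconformal E₀ gN gN' q (fun _ => 1) (fun _ => ε))
    {ψ : M → ℝ} (h₁ : IsConf ψ g g₁) (h₁' : IsConf ψ g' g₁') (hR : RiemSub g₁' gN' pr) :
    RiemSub g₁ gN pr := by
  refine ⟨hpr, ?_⟩
  intro p u v hu hv
  have hexp : Real.exp (ψ p) ^ 2 ≠ 0 := pow_ne_zero 2 (Real.exp_pos _).ne'
  have hcomp := mfderiv_comp_apply hpr hq p
  -- horizontal vectors for `pr`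
  have hsub : ∀ a : TangentSpace 𝓘(ℝ, E) p,
      Horizontal (E₁ := E₀) g (fun p => q (pr p)) p a → Horizontal (E₁ := E₁) g pr p a := by
    intro a ha w hw
    refine ha w ?_
    rw [hcomp, hw]
    exact map_zero _
  -- the key statement for one vector
  have key : ∀ a : TangentSpace 𝓘(ℝ, E) p, Horizontal (E₁ := E₁) g₁ pr p a →
      ∃ b c : TangentSpace 𝓘(ℝ, E) p, a = b + c ∧
        Horizontal (E₁ := E₀) g (fun p => q (pr p)) p b ∧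
        mfderiv 𝓘(ℝ, E) 𝓘(ℝ, E₀) (fun p => q (pr p)) p c = 0 ∧
        Horizontal (E₁ := E₁) g₁' pr p b ∧ Horizontal (E₁ := E₁) g₁' pr p c ∧
        Horizontal (E₁ := E₀) gN q (pr p) (mfderiv 𝓘(ℝ, E) 𝓘(ℝ, E₁) pr p b) ∧
        mfderiv 𝓘(ℝ, E₁) 𝓘(ℝ, E₀) q (pr p) (mfderiv 𝓘(ℝ, E) 𝓘(ℝ, E₁) pr p c) = 0 := by
    intro a ha
    obtain ⟨b, c, habc, hb, hc⟩ := Fib.exists_decomp (E₁ := E₀) g (fun p => q (pr p)) p a
    have ha' := hor_of_conf h₁ ha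
    have hbh := hsub b hb
    have hch : Horizontal (E₁ := E₁) g pr p c := by
      intro w hw
      have h2 := ha' w hw
      have h3 := hbh w hw
      rw [habc] at h2
      simp only [map_add, add_apply] at h2
      rw [h3, zero_add] at h2
      exact h2
    have hbh' : Horizontal (E₁ := E₁) g' pr p b := by
      intro w hw
      refine bic_orth hM p b w hb ?_
      rw [hcomp, hw]
      exact map_zero _
    have hch' : Horizontal (E₁ := E₁) g' pr p c := by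
      intro w hw
      have h2 : mfderiv 𝓘(ℝ, E) 𝓘(ℝ, E₀) (fun p => q (pr p)) p w = 0 := by
        rw [hcomp, hw]
        exact map_zero _
      rw [BiconfAux.vert hM p c w hc h2, hch w hw, mul_zero]
    refine ⟨b, c, habc, hb, hc, hor_to_conf h₁' hbh', hor_to_conf h₁' hch', ?_, ?_⟩
    · refine BiconfAux.hor_of_hor hN (pr p) _ ?_
      intro x hx
      obtain ⟨w, hw⟩ := hpr.2 p x
      obtain ⟨w₁, w₂, hw12, hw₁, hw₂⟩ := Fib.exists_decomp (E₁ := E₁) g₁' pr p w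
      have hx' : mfderiv 𝓘(ℝ, E) 𝓘(ℝ, E₁) pr p w₁ = x := by
        rw [← hw, hw12, map_add, hw₂, add_zero]
      have h2 : mfderiv 𝓘(ℝ, E) 𝓘(ℝ, E₀) (fun p => q (pr p)) p w₁ = 0 := by
        rw [hcomp, hx', hx]
      have h3 := hR.2 p b w₁ (hor_to_conf h₁' hbh') hw₁
      rw [hx', h₁' p b w₁, bic_orth hM p b w₁ hb h2, mul_zero] at h3
      exact h3
    · rw [← hcomp, hc]
  obtain ⟨u₁, u₂, hu12, hu₁, hu₂, hu₁', hu₂', hu₁N, hu₂N⟩ := key u hu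
  obtain ⟨v₁, v₂, hv12, hv₁, hv₂, hv₁', hv₂', hv₁N, hv₂N⟩ := key v hv
  have e1 := hR.2 p u₁ v₁ hu₁' hv₁'
  have e2 := hR.2 p u₂ v₂ hu₂' hv₂'
  rw [BiconfAux.hor hN (pr p) _ _ hu₁N hv₁N, h₁' p u₁ v₁, BiconfAux.hor hM p u₁ v₁ hu₁ hv₁] at e1
  rw [BiconfAux.vert hN (pr p) _ _ hu₂N hv₂N, h₁' p u₂ v₂,
    BiconfAux.vert hM p u₂ v₂ hu₂ hv₂] at e2
  have hε2 : ε ^ 2 ≠ 0 := pow_ne_zero 2 hε.ne'
  have e2' : gN.inner (pr p) (mfderiv 𝓘(ℝ, E) 𝓘(ℝ, E₁) pr p u₂)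
      (mfderiv 𝓘(ℝ, E) 𝓘(ℝ, E₁) pr p v₂) = Real.exp (ψ p) ^ 2 * g.inner p u₂ v₂ := by
    have e3 : ε ^ 2 * (gN.inner (pr p) (mfderiv 𝓘(ℝ, E) 𝓘(ℝ, E₁) pr p u₂)
      (mfderiv 𝓘(ℝ, E) 𝓘(ℝ, E₁) pr p v₂)) = ε ^ 2 * (Real.exp (ψ p) ^ 2 * g.inner p u₂ v₂) := by
      rw [e2]
      ring
    exact mul_left_cancel₀ hε2 e3
  have c1 : gN.inner (pr p) (mfderiv 𝓘(ℝ, E) 𝓘(ℝ, E₁) pr p u₁)
      (mfderiv 𝓘(ℝ, E) 𝓘(ℝ, E₁) pr p v₂) = 0 := hu₁N _ hv₂N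
  have c2 : gN.inner (pr p) (mfderiv 𝓘(ℝ, E) 𝓘(ℝ, E₁) pr p u₂)
      (mfderiv 𝓘(ℝ, E) 𝓘(ℝ, E₁) pr p v₁) = 0 := by
    rw [gN.symm]
    exact hv₁N _ hu₂N
  have c3 : g.inner p u₁ v₂ = 0 := hu₁ _ hv₂
  have c4 : g.inner p u₂ v₁ = 0 := by
    rw [g.symm]
    exact hv₁ _ hu₂
  have eu : mfderiv 𝓘(ℝ, E) 𝓘(ℝ, E₁) pr p u =
      mfderiv 𝓘(ℝ, E) 𝓘(ℝ, E₁) pr p u₁ + mfderiv 𝓘(ℝ, E) 𝓘(ℝ, E₁) pr p u₂ := by
    rw [hu12]
    exact map_add _ _ _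
  have ev : mfderiv 𝓘(ℝ, E) 𝓘(ℝ, E₁) pr p v =
      mfderiv 𝓘(ℝ, E) 𝓘(ℝ, E₁) pr p v₁ + mfderiv 𝓘(ℝ, E) 𝓘(ℝ, E₁) pr p v₂ := by
    rw [hv12]
    exact map_add _ _ _
  have eg : g.inner p u v =
      g.inner p u₁ v₁ + g.inner p u₁ v₂ + (g.inner p u₂ v₁ + g.inner p u₂ v₂) := by
    rw [hu12, hv12]
    exact inner_add_add g p u₁ u₂ v₁ v₂
  rw [h₁ p u v, eg, eu, ev, inner_add_add gN, e1, e2', c1, c2, c3, c4]
  ring

/-- Ricci flatness of the fibres. -/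
theorem flat_up {pr : M → N} (hpr : Submersion E E₁ pr) {q : N → P}
    (hq : Submersion E₁ E₀ q) {g g' g₁ g₁' : Met E M} {ε : ℝ} (hε : 0 < ε)
    (hM : Biconformal E₀ g g' (fun p => q (pr p)) (fun _ => 1) (fun _ => ε))
    {ψ : M → ℝ} (h₁ : IsConf ψ g g₁) (h₁' : IsConf ψ g' g₁')
    (hF : RicciFlatFibres E₂ g₁' pr) : RicciFlatFibres E₂ g₁ pr := by
  intro σ y hσ hinj hpr'
  have hε2 : ε ^ 2 ≠ 0 := pow_ne_zero 2 hε.ne'
  have hsm : ∀ᶠ y' in 𝓝 y, ContMDiffAt 𝓘(ℝ, E₂) 𝓘(ℝ, E) 1 σ y' :=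
    (contMDiffAt_iff_contMDiffAt_nhds (by simp)).1 (hσ.of_le (by exact_mod_cast le_top))
  have hev : Circ.cf g₁' σ =ᶠ[𝓝 y] fun y' => ε ^ 2 • Circ.cf g₁ σ y' := by
    filter_upwards [hsm, hpr'.eventually_nhds] with y' h1 h2
    have hd : MDifferentiableAt 𝓘(ℝ, E₂) 𝓘(ℝ, E) σ y' := h1.mdifferentiableAt (by simp)
    have hprd : MDifferentiableAt 𝓘(ℝ, E) 𝓘(ℝ, E₁) pr (σ y') :=
      (hpr.1 (σ y')).mdifferentiableAt (by simp)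
    have hv : ∀ v : TangentSpace 𝓘(ℝ, E₂) y',
        mfderiv 𝓘(ℝ, E) 𝓘(ℝ, E₁) pr (σ y') (mfderiv 𝓘(ℝ, E₂) 𝓘(ℝ, E) σ y' v) = 0 := by
      intro v
      have hc : mfderiv 𝓘(ℝ, E₂) 𝓘(ℝ, E₁) (pr ∘ σ) y' =
          (mfderiv 𝓘(ℝ, E) 𝓘(ℝ, E₁) pr (σ y')).comp (mfderiv 𝓘(ℝ, E₂) 𝓘(ℝ, E) σ y') :=
        mfderiv_comp y' hprd hd
      have hc2 : mfderiv 𝓘(ℝ, E₂) 𝓘(ℝ, E₁) (pr ∘ σ) y' = 0 := by
        have he : (pr ∘ σ) =ᶠ[𝓝 y'] fun _ => pr (σ y) := h2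
        have h3 := (hasMFDerivAt_const (I := 𝓘(ℝ, E₂)) (I' := 𝓘(ℝ, E₁)) (pr (σ y))
          y').congr_of_eventuallyEq he
        exact h3.mfderiv
      have hc3 := congrArg (fun L : TangentSpace 𝓘(ℝ, E₂) y' →L[ℝ] E₁ => L v) (hc.symm.trans hc2)
      exact hc3
    have hv' : ∀ v : TangentSpace 𝓘(ℝ, E₂) y',
        mfderiv 𝓘(ℝ, E) 𝓘(ℝ, E₀) (fun p => q (pr p)) (σ y')
          (mfderiv 𝓘(ℝ, E₂) 𝓘(ℝ, E) σ y' v) = 0 := by
      intro v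
      rw [mfderiv_comp_apply hpr hq, hv v]
      exact map_zero _
    ext i j
    rw [Matrix.smul_apply, smul_eq_mul]
    have h3 := BiconfAux.vert hM (σ y') _ _ (hv' (finBasis ℝ E₂ i)) (hv' (finBasis ℝ E₂ j))
    unfold Circ.cf
    rw [h₁' (σ y'), h₁ (σ y'), h3]
    ring
  have h4 := hF σ y hσ hinj hpr'
  rw [ric_congr hev, BiconfAux.ric_smul _ hε2] at h4
  exact h4

end Lin

end Pool.Agent.Lib.MP_df705a_gt.Coll
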