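import Pool.Agent.Lib.MP_df705a_gt.Coll.W.Lin

/-!
# Uniqueness of the conformal class on the base
-/

open scoped Manifold ContDiff Topology
open Set Bundle Module Filter

noncomputable section

namespace Pool.Agent.Lib.MP_df705a_gt.Coll

open Pool.Agent.Lib.MP_df705a_gt.Twist Pool.Agent.Lib.MP_df705a_gt.Perm
open Pool.Agent.Lib.MP_df705a_gt.Circ (Horizontal Submersion cf)
open Pool.Agent.Lib.MP_df705a_gt.Fib (RiemSub Biconformal)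

variable {E : Type*} [NormedAddCommGroup E] [NormedSpace ℝ E] [FiniteDimensional ℝ E]
  {M : Type*} [TopologicalSpace M] [ChartedSpace E M] [IsManifold 𝓘(ℝ, E) ∞ M]
  {E₁ : Type*} [NormedAddCommGroup E₁] [NormedSpace ℝ E₁] [FiniteDimensional ℝ E₁]
  {N : Type*} [TopologicalSpace N] [ChartedSpace E₁ N] [IsManifold 𝓘(ℝ, E₁) ∞ N]
  {E₂ : Type*} [NormedAddCommGroup E₂] [NormedSpace ℝ E₂] [FiniteDimensional ℝ E₂]
  {F : Type*} [TopologicalSpace F] [ChartedSpace E₂ F] [IsManifold 𝓘(ℝ, E₂) ∞ F]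

namespace Uniq

set_option linter.unusedSectionVars false

/-- The two metrics on the base are related at `pr p` by the factor `exp (χ p - ψ p) ^ 2`. -/
theorem ratio {pr : M → N} (hpr : Submersion E E₁ pr) {g g₁ g₂ : Met E M} {gN gN' : Met E₁ N}
    {ψ χ : M → ℝ} (h₁ : IsConf ψ g g₁) (h₂ : IsConf χ g g₂) (hR₁ : RiemSub g₁ gN pr)
    (hR₂ : RiemSub g₂ gN' pr) (p : M) (a b : TangentSpace 𝓘(ℝ, E₁) (pr p)) :
    gN'.inner (pr p) a b = Real.exp (χ p - ψ p) ^ 2 * gN.inner (pr p) a b := by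
  have lift : ∀ a : TangentSpace 𝓘(ℝ, E₁) (pr p), ∃ u : TangentSpace 𝓘(ℝ, E) p,
      mfderiv 𝓘(ℝ, E) 𝓘(ℝ, E₁) pr p u = a ∧ Horizontal (E₁ := E₁) g pr p u := by
    intro a
    obtain ⟨u, hu⟩ := hpr.2 p a
    obtain ⟨u₁, u₂, h12, hu₁, hu₂⟩ := Fib.exists_decomp (E₁ := E₁) g pr p u
    refine ⟨u₁, ?_, hu₁⟩
    rw [← hu, h12, map_add, hu₂, add_zero]
  obtain ⟨u, hu, hu'⟩ := lift a
  obtain ⟨v, hv, hv'⟩ := lift b
  have e1 := hR₁.2 p u v (Lin.hor_to_conf h₁ hu') (Lin.hor_to_conf h₁ hv')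
  have e2 := hR₂.2 p u v (Lin.hor_to_conf h₂ hu') (Lin.hor_to_conf h₂ hv')
  rw [hu, hv, h₁ p u v] at e1
  rw [hu, hv, h₂ p u v] at e2
  rw [e1, e2, ← mul_assoc, ← mul_pow, ← Real.exp_add]
  congr 3
  ring

theorem conf_unique [Nonempty F] (hd₁ : 0 < finrank ℝ E₁) {pr : M → N}
    (hpr : IsFibreBundle E E₁ E₂ F pr)
    {g g₁ g₂ : Met E M} {gN gN' : Met E₁ N} {ψ χ : M → ℝ} (hψ : Sm E ψ) (hχ : Sm E χ)
    (h₁ : IsConf ψ g g₁) (h₂ : IsConf χ g g₂) (hR₁ : RiemSub g₁ gN pr)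
    (hR₂ : RiemSub g₂ gN' pr) : ∃ θ : N → ℝ, Sm E₁ θ ∧ IsConf θ gN gN' := by
  obtain ⟨y₀⟩ := (inferInstance : Nonempty F)
  have hsurj : ∀ x : N, ∃ p : M, pr p = x := by
    intro x
    obtain ⟨U, Φ, hx, hΦ⟩ := hpr.2 x
    exact ⟨Φ (x, y₀), hΦ.proj x hx y₀⟩
  choose s hs using hsurj
  have hr := ratio hpr.1 h₁ h₂ hR₁ hR₂
  have hconst : ∀ p p' : M, pr p = pr p' → χ p - ψ p = χ p' - ψ p' := by
    intro p p' hpp
    have hne : ∃ a : E₁, a ≠ 0 := by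
      have : Nontrivial E₁ := Module.nontrivial_of_finrank_pos hd₁
      exact exists_ne 0
    obtain ⟨a, ha⟩ := hne
    have e1 := hr p a a
    have e2 : gN'.inner (pr p) a a = Real.exp (χ p' - ψ p') ^ 2 * gN.inner (pr p) a a := by
      have h3 := hr p' a a
      rw [← hpp] at h3
      exact h3
    have hpos : 0 < gN.inner (pr p) a a := gN.pos (pr p) a ha
    have e3 : Real.exp (χ p - ψ p) ^ 2 = Real.exp (χ p' - ψ p') ^ 2 :=
      mul_right_cancel₀ hpos.ne' (e1.symm.trans e2)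
    have e4 := (pow_left_inj₀ (Real.exp_pos _).le (Real.exp_pos _).le two_ne_zero).1 e3
    exact Real.exp_injective e4
  refine ⟨fun x => χ (s x) - ψ (s x), ?_, ?_⟩
  · intro x
    obtain ⟨U, Φ, hx, hΦ⟩ := hpr.2 x
    have h3 : ContMDiffAt 𝓘(ℝ, E₁) (𝓘(ℝ, E₁).prod 𝓘(ℝ, E₂)) ∞ (fun z : N => (z, y₀)) x :=
      contMDiffAt_id.prodMk contMDiffAt_const
    have h4 : ContMDiffAt (𝓘(ℝ, E₁).prod 𝓘(ℝ, E₂)) 𝓘(ℝ, E) ∞ Φ (x, y₀) :=
      (hΦ.smooth (x, y₀) ⟨hx, mem_univ _⟩).contMDiffAt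
        ((hΦ.isOpen.prod isOpen_univ).mem_nhds ⟨hx, mem_univ _⟩)
    have h5 : ContMDiffAt 𝓘(ℝ, E₁) 𝓘(ℝ, E) ∞ (fun z : N => Φ (z, y₀)) x := h4.comp x h3
    have h6 : ContMDiffAt 𝓘(ℝ, E₁) 𝓘(ℝ, ℝ) ∞
        (fun z : N => χ (Φ (z, y₀)) - ψ (Φ (z, y₀))) x :=
      ((hχ _).comp x h5).sub ((hψ _).comp x h5)
    refine h6.congr_of_eventuallyEq ?_
    filter_upwards [hΦ.isOpen.mem_nhds hx] with z hz
    exact hconst _ _ ((hs z).trans (hΦ.proj z hz y₀).symm)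
  · intro x a b
    have h3 := hr (s x)
    have h4 : pr (s x) = x := hs x
    revert a b
    rw [h4] at h3
    exact h3

end Uniq

end Pool.Agent.Lib.MP_df705a_gt.Coll
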