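import Pool.Agent.Lib.MP_df705a_gt.Coll.Top
import Pool.Agent.Lib.MP_df705a_gt.Coll.W.Uniq

/-!
# Iterated collapse of towers of fibre bundles
-/

open scoped Manifold ContDiff Topology
open Set Bundle Module Filter

noncomputable section

namespace Pool.Agent.Lib.MP_df705a_gt.Coll

open Pool.Agent.Lib.MP_df705a_gt.Twist Pool.Agent.Lib.MP_df705a_gt.Perm
open Pool.Agent.Lib.MP_df705a_gt.Circ (Horizontal Submersion cf)
open Pool.Agent.Lib.MP_df705a_gt.Fib (RiemSub Biconformal)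

set_option linter.unusedSectionVars false

universe u v

namespace TowerAux

variable {M N : ClosedMfd.{u, v}}

theorem isConf_comm {g g' : Met M.E M.M} {χ : M.M → ℝ} (h : IsConf χ g g') :
    IsConf (fun x => -χ x) g' g := by
  intro x u v
  rw [h x u v, ← mul_assoc, ← mul_pow, ← Real.exp_add, neg_add_cancel, Real.exp_zero, one_pow,
    one_mul]

/-- Conformal invariance. -/
theorem noPSC_conf (qs : List (Σ N : ClosedMfd.{u, v}, M.M → N.M)) :
    ∀ {g g' : Met M.E M.M} {χ : M.M → ℝ}, Sm M.E χ → IsConf χ g g' → NoPSC qs g →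
      NoPSC qs g' := by
  induction qs with
  | nil =>
    intro g g' χ hχ h hg hg'
    exact hg (ConfPSC.of_conf (ψ := fun x => -χ x) hχ.neg (isConf_comm h) hg')
  | cons q qs ih =>
    intro g g' χ hχ h hg
    obtain ⟨e, he, hE⟩ := hg
    refine ⟨e, he, fun ε hε hεe => ?_⟩
    obtain ⟨⟨k, hk⟩, hall⟩ := hE ε hε hεe
    refine ⟨?_, ?_⟩
    · obtain ⟨k', hk'⟩ := exists_conf k hχ
      exact ⟨k', biconf_conf h hk' hk⟩
    · intro k' hk'
      obtain ⟨k'', hk''⟩ := exists_conf k' (ψ := fun x => -χ x) hχ.neg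
      have h1 : Biconformal q.1.E g k'' q.2 (fun _ => 1) (fun _ => ε) :=
        biconf_conf (isConf_comm h) hk'' hk'
      refine ih (g := k'') (χ := χ) hχ ?_ (hall k'' h1)
      intro x u v
      rw [hk'' x u v, ← mul_assoc, ← mul_pow, ← Real.exp_add, add_neg_cancel, Real.exp_zero,
        one_pow, one_mul]

/-- The maps of a tower are submersions. -/
theorem maps_sub {B : ClosedMfd.{u, v}} : ∀ {M : ClosedMfd.{u, v}} (T : Tower B M),
    ∀ q ∈ T.maps, Submersion M.E q.1.E q.2 := by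
  intro M T
  induction T with
  | base =>
    intro q hq
    simp [Tower.maps] at hq
  | step T M F pr hM hpr hF ih =>
    intro q hq
    simp only [Tower.maps, List.mem_append, List.mem_map, List.mem_singleton] at hq
    rcases hq with ⟨r, hr, rfl⟩ | rfl
    · exact Lin.submersion_comp hpr.1 (ih r hr)
    · exact hpr.1

/-- The main induction. -/
theorem noPSC_lift {E₂ : Type u} [NormedAddCommGroup E₂] [NormedSpace ℝ E₂]
    [FiniteDimensional ℝ E₂] {F : Type v} [TopologicalSpace F] [ChartedSpace E₂ F]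
    [IsManifold 𝓘(ℝ, E₂) ∞ F] [CompactSpace F] [T2Space F] [ConnectedSpace F]
    (hM : finrank ℝ M.E = finrank ℝ N.E + finrank ℝ E₂) (hF0 : 0 < finrank ℝ E₂)
    {pr : M.M → N.M} (hpr : IsFibreBundle M.E N.E E₂ F pr) (hF : ∀ h : Met E₂ F, ¬ PosScal h)
    (qs : List (Σ P : ClosedMfd.{u, v}, N.M → P.M)) :
    (∀ q ∈ qs, Submersion N.E q.1.E q.2) → ∀ g : Met M.E M.M,
      (∀ gN : Met N.E N.M, ConfFlat E₂ pr g gN → NoPSC qs gN) →
      NoPSC ((qs.map fun q => ⟨q.1, fun p => q.2 (pr p)⟩) ++ [⟨N, pr⟩]) g := by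
  have : Nonempty M.M := inferInstance
  induction qs with
  | nil =>
    intro _ g hg
    rcases collapse hM N.pos hF0 hpr hF g with ⟨e, he, h⟩ | ⟨ψ, g₁, gN, hψ, h₁, hR, hfl, hc⟩
    · exact ⟨e, he, h⟩
    · exact absurd hc (hg gN ⟨ψ, g₁, hψ, h₁, hR, hfl⟩)
  | cons q qs ih =>
    intro hsub g hg
    have hq : Submersion N.E q.1.E q.2 := hsub q (by simp)
    have hsub' : ∀ q ∈ qs, Submersion N.E q.1.E q.2 := fun r hr => hsub r (by simp [hr])
    have hqpr : Submersion M.E q.1.E (fun p => q.2 (pr p)) := Lin.submersion_comp hpr.1 hq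
    -- transport of the conformal submersion structure
    have htr : ∀ (ε : ℝ), 0 < ε → ∀ g' : Met M.E M.M,
        Biconformal q.1.E g g' (fun p => q.2 (pr p)) (fun _ => 1) (fun _ => ε) →
        ∀ gN' : Met N.E N.M, ConfFlat E₂ pr g' gN' → ∃ gN : Met N.E N.M,
          Biconformal q.1.E gN gN' q.2 (fun _ => 1) (fun _ => ε) ∧ ConfFlat E₂ pr g gN := by
      intro ε hε g' hg' gN' hcf
      obtain ⟨ψ, g₁', hψ, h₁', hR, hfl⟩ := hcf
      obtain ⟨gN, hgN⟩ := exists_biconf hq gN' (inv_pos.2 hε)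
      have hgN' : Biconformal q.1.E gN gN' q.2 (fun _ => 1) (fun _ => ε) := by
        have h2 := Lin.bic_inv (inv_pos.2 hε) hgN
        rw [inv_inv] at h2
        exact h2
      obtain ⟨g₁, h₁⟩ := exists_conf g hψ
      exact ⟨gN, hgN', ψ, g₁, hψ, h₁, Lin.riemSub_up hpr.1 hq hε hg' hgN' h₁ h₁' hR,
        Lin.flat_up hpr.1 hq hε hg' h₁ h₁' hfl⟩
    by_cases hex : ∃ gN : Met N.E N.M, ConfFlat E₂ pr g gN
    · obtain ⟨gN₀, h₀⟩ := hex
      obtain ⟨e, he, hE⟩ := hg gN₀ h₀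
      refine ⟨e, he, fun ε hε hεe => ⟨exists_biconf hqpr g hε, fun g' hg' => ?_⟩⟩
      refine ih hsub' g' fun gN' hcf => ?_
      obtain ⟨gN, hgN, hcf'⟩ := htr ε hε g' hg' gN' hcf
      obtain ⟨⟨k, hk⟩, hall⟩ := hE ε hε hεe
      obtain ⟨ψ, g₁, hψ, h₁, hR, -⟩ := h₀
      obtain ⟨χ, g₂, hχ, h₂, hR', -⟩ := hcf'
      obtain ⟨θ, hθ, hconf⟩ := Uniq.conf_unique (F := F) N.pos hpr hψ hχ h₁ h₂ hR hR'
      obtain ⟨k', hk'⟩ := exists_conf k hθ
      have h3 : NoPSC qs k' := noPSC_conf qs hθ hk' (hall k hk)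
      have h4 : Biconformal q.1.E gN k' q.2 (fun _ => 1) (fun _ => ε) := biconf_conf hconf hk' hk
      have h5 : IsConf (fun _ => 0) k' gN' := by
        intro x u v
        rw [Real.exp_zero, one_pow, one_mul]
        obtain ⟨a, b, hab, ha, hb⟩ := Fib.exists_decomp (E₁ := q.1.E) gN q.2 x u
        obtain ⟨c, d, hcd, hc, hd⟩ := Fib.exists_decomp (E₁ := q.1.E) gN q.2 x v
        rw [hab, hcd, hgN x a c b d ha hc hb hd, h4 x a c b d ha hc hb hd]
      exact noPSC_conf qs (χ := fun _ => 0) contMDiff_const h5 h3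
    · refine ⟨1, one_pos, fun ε hε _ => ⟨exists_biconf hqpr g hε, fun g' hg' => ?_⟩⟩
      refine ih hsub' g' fun gN' hcf => ?_
      obtain ⟨gN, -, hcf'⟩ := htr ε hε g' hg' gN' hcf
      exact absurd ⟨gN, hcf'⟩ hex

end TowerAux

/-- The collapse theorem for towers. -/
theorem tower_collapse {B : ClosedMfd.{u, v}} : ∀ {M : ClosedMfd.{u, v}} (T : Tower B M)
    (g : Met M.E M.M), NoPSC T.maps g ∨ T.Rigid g := by
  intro M T
  induction T with
  | base =>
    intro g
    by_cases h : ConfPSC g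
    · exact Or.inr h
    · exact Or.inl h
  | step T M F pr hM hpr hF ih =>
    intro g
    by_cases h : ∃ gN, ConfFlat F.E pr g gN ∧ T.Rigid gN
    · exact Or.inr h
    · refine Or.inl ?_
      refine TowerAux.noPSC_lift hM F.pos hpr hF T.maps (TowerAux.maps_sub T) g ?_
      intro gN hcf
      rcases ih gN with h1 | h1
      · exact h1
      · exact absurd ⟨gN, hcf, h1⟩ h

end Pool.Agent.Lib.MP_df705a_gt.Coll
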